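import Mathlib
import Pool.Agent.W662.SK.StmtsA
import Pool.Agent.W662.SK.Basic

set_option autoImplicit false

open scoped InnerProductSpace ENNReal

namespace Pool.Agent.W359.SK.A8

open Pool.Agent.W662.SK

noncomputable section

theorem cs_zero : cs 0 = 1 := by simp [cs]

theorem isRot_zero {s : G3} {R : K0 ≃ₗᵢ[ℂ] K0} (h : IsRot 0 s R) : R = 1 := by
  ext f x
  rw [h f x]
  simp only [rotFun, cs_zero]
  by_cases h1 : x = 1
  · subst h1
    simp
  · by_cases h2 : x = s
    · subst h2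
      simp [h1]
    · simp [h1, h2]

theorem Rot_zero (s : G3) : Rot 0 s = 1 := by
  unfold Rot
  split_ifs with h
  · exact isRot_zero h.choose_spec
  · rfl

/-- left translation as a homomorphism -/
def lamHom : G3 →* (K0 ≃ₗᵢ[ℂ] K0) where
  toFun g := Lam ℂ g
  map_one' := by
    ext f x
    simp
  map_mul' g h := by
    ext f x
    simp [mul_assoc]

theorem rp_zero : rp 0 = lamHom := by
  refine FreeGroup.ext_hom _ _ fun i => ?_
  simp only [rp, FreeGroup.lift_apply_of, Rot_zero, one_mul]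
  rfl

theorem a8 (_h1 : S_A1) : S_A8 := by
  intro n ζ F ε hε
  refine ⟨ℂ, inferInstance, inferInstance, inferInstance, ζ, fun g _ i j => ?_⟩
  rw [rp_zero]
  change ‖⟪ζ j, Lam ℂ g (ζ i)⟫_ℂ - ⟪ζ j, Lam ℂ g (ζ i)⟫_ℂ‖ < ε
  simpa using hε

end

end Pool.Agent.W359.SK.A8
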